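import Pool.Agent.H89.KD.Stmts
import Mathlib.Analysis.Normed.Operator.Extend
import Mathlib.Analysis.Normed.Module.HahnBanach

/-!
# Module EXF of project KD: extension of functionals

A functional on the functions of exponential growth, bounded by the `L^2 (mu U)` norm, is the
restriction of a bounded functional on `L^2 (mu U)`: it factors through the classes, and the
functional on the subspace of the classes is extended by Hahn-Banach.
-/

set_option autoImplicit false

open MeasureTheory Set Filter Topology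
open scoped ContDiff

namespace Pool.Agent.H89.KD

open Pool.Agent.H84 Pool.Agent.H84.Sym Pool.Agent.H84.Sym.P2x Pool.Agent.H19.KL
open Pool.Agent.H73.KG Pool.Agent.H20.KH

/-- an abstract form: two linear maps, one dominated by the other -/
theorem exf_aux {V H : Type*} [AddCommGroup V] [Module ℝ V] [NormedAddCommGroup H]
    [NormedSpace ℝ H] (φ : V →ₗ[ℝ] ℝ) (e : V →ₗ[ℝ] H) (C : ℝ) (h : ∀ x, ‖φ x‖ ≤ C * ‖e x‖) :
    ∃ P : H →L[ℝ] ℝ, ∀ x, P (e x) = φ x := by
  obtain ⟨P, hP, -⟩ := _root_.exists_extension_norm_eq (LinearMap.range e) (φ.compLeftInverse e)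
  refine ⟨P, fun x => ?_⟩
  have h1 := hP ⟨e x, LinearMap.mem_range_self e x⟩
  rw [← LinearMap.compLeftInverse_apply_of_bdd (f := φ) (g := e) ⟨C, h⟩ x (e x) rfl]
  exact h1

section

variable (E : Type) [NormedAddCommGroup E] [InnerProductSpace ℝ E]
    [FiniteDimensional ℝ E] [MeasurableSpace E] [BorelSpace E]

/-- the functions of exponential growth, as a subspace -/
def exf_S : Submodule ℝ (E → ℝ) where
  carrier := {f | GC f}
  zero_mem' := GC.const (H := E) 0
  add_mem' := fun {_ _} hf hg => GC.add hf hg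
  smul_mem' := fun c _ hf => GC.mul (GC.const (H := E) c) hf

/-- EXF -/
theorem exf_thm (hMEM : MEMStmt E) : EXFStmt E := by
  intro U t hPP Φ K hK hadd hsm hbd
  obtain ⟨-, h2, h3, -, h5, -⟩ := hMEM U t hPP
  let e : exf_S E →ₗ[ℝ] Lp ℝ 2 (mu U) :=
    { toFun := fun f => tL U (f : E → ℝ)
      map_add' := fun f g => h2 f g f.2 g.2
      map_smul' := fun c f => h3 c f f.2 }
  let φ : exf_S E →ₗ[ℝ] ℝ :=
    { toFun := fun f => Φ (f : E → ℝ)
      map_add' := fun f g => hadd f g f.2 g.2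
      map_smul' := fun c f => hsm c f f.2 }
  obtain ⟨P, hP⟩ := exf_aux φ e (Real.sqrt K) (fun f => by
    have h1 : (Φ (f : E → ℝ)) ^ 2 ≤ (Real.sqrt K * ‖tL U (f : E → ℝ)‖) ^ 2 := by
      rw [mul_pow, Real.sq_sqrt hK, h5 f f.2]
      exact hbd f f.2
    have h2 : 0 ≤ Real.sqrt K * ‖tL U (f : E → ℝ)‖ := by positivity
    show ‖Φ (f : E → ℝ)‖ ≤ Real.sqrt K * ‖tL U (f : E → ℝ)‖
    rw [Real.norm_eq_abs]
    exact abs_le_of_sq_le_sq h1 h2)
  exact ⟨P, fun f hf => hP ⟨f, hf⟩⟩

end

end Pool.Agent.H89.KD
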